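import Pool.Agent.Helper95.KZ.Goals

/-!
# KZ-JMP (shadow): a line `l` disjoint from `k l` does not separate
-/

set_option autoImplicit false

namespace Pool.Agent.Helper98.KZ

open Pool.Agent.Helper52.Wq2 Pool.Agent.Helper95.KZ

universe u

theorem adj_left {Γ : Type u} [Group Γ] {S : Set Γ} (g : Γ) {x y : Γ} (h : (cay S).Adj x y) :
    (cay S).Adj (g * x) (g * y) := by
  unfold cay at h ⊢
  rw [SimpleGraph.fromRel_adj] at h ⊢
  refine ⟨fun e => h.1 (mul_left_cancel e), ?_⟩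
  have e1 : (g * x)⁻¹ * (g * y) = x⁻¹ * y := by group
  have e2 : (g * y)⁻¹ * (g * x) = y⁻¹ * x := by group
  rw [e1, e2]
  exact h.2

theorem conn_left {Γ : Type u} [Group Γ] {S : Set Γ} (g : Γ) {W : Set Γ} (h : Conn (cay S) W) :
    Conn (cay S) ((fun x => g * x) '' W) :=
  h.image _ (fun _ _ _ _ hab => Or.inr (adj_left g hab))

theorem conn_add {V : Type*} {G : SimpleGraph V} {W : Set V} (h : Conn G W) {x y : V} (hx : x ∈ W)
    (hxy : G.Adj x y) : Conn G (W ∪ {y}) :=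
  h.union (conn_singleton G y) hx rfl hxy

theorem conn_union_inter {V : Type*} {G : SimpleGraph V} {A B : Set V} (hA : Conn G A)
    (hB : Conn G B) {x : V} (hxA : x ∈ A) (hxB : x ∈ B) : Conn G (A ∪ B) := by
  refine ⟨⟨x, Or.inl hxA⟩, ?_⟩
  intro T hT hne hcl
  have h1 : (∃ x ∈ T, x ∈ A) → A ⊆ T := by
    rintro ⟨x, hxT, hxA⟩ y hy
    exact (hA.2 (T ∩ A) Set.inter_subset_right ⟨x, hxT, hxA⟩
      (fun y hy z hz hyz => ⟨hcl y hy.1 z (Or.inl hz) hyz, hz⟩) hy).1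
  have h2 : (∃ x ∈ T, x ∈ B) → B ⊆ T := by
    rintro ⟨x, hxT, hxB⟩ y hy
    exact (hB.2 (T ∩ B) Set.inter_subset_right ⟨x, hxT, hxB⟩
      (fun y hy z hz hyz => ⟨hcl y hy.1 z (Or.inr hz) hyz, hz⟩) hy).1
  have h3 : A ⊆ T ∧ B ⊆ T := by
    obtain ⟨y, hy⟩ := hne
    rcases hT hy with h | h
    · have h4 := h1 ⟨y, hy, h⟩
      exact ⟨h4, h2 ⟨x, h4 hxA, hxB⟩⟩
    · have h4 := h2 ⟨y, hy, h⟩
      exact ⟨h1 ⟨x, h4 hxB, hxA⟩, h4⟩
  rintro y (hy | hy)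
  · exact h3.1 hy
  · exact h3.2 hy

theorem conn_finite {V : Type*} {G : SimpleGraph V} {W : Set V} (h : Conn G W) {x y : V}
    (hx : x ∈ W) (hy : y ∈ W) : ∃ W' ⊆ W, W'.Finite ∧ Conn G W' ∧ x ∈ W' ∧ y ∈ W' := by
  have h1 := h.2 {y | y ∈ W ∧ ∃ W' ⊆ W, W'.Finite ∧ Conn G W' ∧ x ∈ W' ∧ y ∈ W'}
    (fun z hz => hz.1)
    ⟨x, hx, {x}, by simpa using hx, Set.finite_singleton x, conn_singleton G x, rfl, rfl⟩ (by
      rintro z ⟨_, W', hW', hfin, hc, hxW, hzW⟩ t ht hzt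
      refine ⟨ht, W' ∪ {t}, ?_, hfin.union (Set.finite_singleton t), conn_add hc hzW hzt,
        Or.inl hxW, Or.inr rfl⟩
      rintro s (hs | hs)
      · exact hW' hs
      · rw [Set.mem_singleton_iff.1 hs]; exact ht) hy
  exact h1.2

/-- what can be reached from `R` outside of `l` -/
def Un {V : Type*} (G : SimpleGraph V) (l R : Set V) : Set V :=
  {x | ∃ W, Conn G W ∧ (∀ w ∈ W, w ∉ l) ∧ (∃ r ∈ W, r ∈ R) ∧ x ∈ W}

theorem keyA {Γ : Type u} [Group Γ] {S : Set Γ} (hconn : Conn (cay S) Set.univ) {k : Γ} {o : ℕ}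
    (ho : 0 < o) (hko : k ^ o = 1) {l R : Set Γ} (hl : l.Nonempty) (hkl : ∀ x ∈ l, k * x ∉ l)
    (hRne : R.Nonempty) (hRl : ∀ x ∈ R, x ∉ l) (hkR : ∀ x ∈ R, k⁻¹ * x ∈ R) :
    ∃ y ∈ l, k * y ∈ Un (cay S) l R := by
  by_contra hno
  push Not at hno
  have h1 : ∀ x ∈ Un (cay S) l R, k⁻¹ * x ∈ Un (cay S) l R := by
    rintro x ⟨W, hW, hWl, ⟨r, hrW, hrR⟩, hxW⟩
    refine ⟨(fun y => k⁻¹ * y) '' W, conn_left _ hW, ?_, ⟨k⁻¹ * r, ⟨r, hrW, rfl⟩, hkR r hrR⟩,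
      ⟨x, hxW, rfl⟩⟩
    rintro _ ⟨w, hw, rfl⟩ hwl
    have h2 := hno _ hwl
    apply h2
    refine ⟨W, hW, hWl, ⟨r, hrW, hrR⟩, ?_⟩
    simpa using hw
  have hext : ∀ x ∈ Un (cay S) l R, ∀ y, (cay S).Adj x y → y ∉ l → y ∈ Un (cay S) l R := by
    rintro x ⟨W, hW, hWl, ⟨r, hrW, hrR⟩, hxW⟩ y hxy hyl
    refine ⟨W ∪ {y}, conn_add hW hxW hxy, ?_, ⟨r, Or.inl hrW, hrR⟩, Or.inr rfl⟩
    rintro w (hw | hw)
    · exact hWl w hw
    · rw [Set.mem_singleton_iff.1 hw]; exact hyl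
  have hex : ∃ x ∈ Un (cay S) l R, ∃ y, (cay S).Adj x y ∧ y ∉ Un (cay S) l R := by
    by_contra hcon
    push Not at hcon
    obtain ⟨r, hr⟩ := hRne
    have h2 := hconn.2 (Un (cay S) l R) (fun _ _ => trivial)
      ⟨r, {r}, conn_singleton _ r, by
        intro w hw
        rw [Set.mem_singleton_iff.1 hw]
        exact hRl r hr, ⟨r, rfl, hr⟩, rfl⟩
      (fun x hx y _ hxy => hcon x hx y hxy)
    obtain ⟨y, hy⟩ := hl
    obtain ⟨W, _, hWl, _, hyW⟩ := h2 (Set.mem_univ y)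
    exact hWl y hyW hy
  obtain ⟨x, hx, y, hxy, hy⟩ := hex
  have hyl : y ∈ l := by
    by_contra hyl
    exact hy (hext x hx y hxy hyl)
  have hky : k⁻¹ * y ∉ l := by
    intro h2
    have h3 := hkl _ h2
    rw [mul_inv_cancel_left] at h3
    exact h3 hyl
  have h2 : k⁻¹ * y ∈ Un (cay S) l R := hext _ (h1 x hx) _ (adj_left k⁻¹ hxy) hky
  have h3 : ∀ n : ℕ, k⁻¹ ^ (n + 1) * y ∈ Un (cay S) l R := by
    intro n
    induction n with
    | zero => simpa using h2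
    | succ n ih =>
      have := h1 _ ih
      rwa [← mul_assoc, ← pow_succ'] at this
  have h4 := h3 (o - 1)
  rw [Nat.sub_add_cancel ho, inv_pow, hko, inv_one, one_mul] at h4
  exact hy h4

theorem jmp (hSlc : SlcStmt.{u}) : JmpStmt.{u} := by
  intro Γ _ S a b k B hP o ho hko l hl hkl L hL hLl c
  have hconn : Conn (cay S) Set.univ := by
    have h1 := hSlc Γ S a b k B hP (fun _ => True) ⟨0, trivial⟩ (fun _ _ _ _ _ _ _ => trivial)
    have h2 : Sl a b B (fun _ => True) = Set.univ := by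
      ext g
      refine ⟨fun _ => trivial, fun _ => ?_⟩
      obtain ⟨i, j, x, hx, hg⟩ := hP.cov g
      exact ⟨i, j, trivial, x, hx, hg⟩
    rwa [h2] at h1
  have hkn : ∀ (n : ℕ), ∀ x ∈ B, k ^ n * x ∈ B := by
    intro n
    induction n with
    | zero => intro x hx; simpa using hx
    | succ n ih =>
      intro x hx
      have := hP.kB _ (ih x hx)
      rwa [← mul_assoc, ← pow_succ'] at this
  have hkinv : k⁻¹ = k ^ (o - 1) := by
    rw [inv_eq_iff_mul_eq_one, ← pow_succ', Nat.sub_add_cancel ho, hko]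
  have hkB : ∀ x ∈ B, k⁻¹ * x ∈ B := by
    intro x hx
    rw [hkinv]
    exact hkn _ x hx
  have hcomm : ∀ i j : ℤ, Commute k⁻¹ (a ^ i * b ^ j) := by
    intro i j
    have h1 : Commute k a := hP.ak.symm
    have h2 : Commute k b := hP.bk.symm
    exact ((h1.zpow_right i).mul_right (h2.zpow_right j)).inv_left
  have hkS : ∀ P : ℤ → Prop, ∀ x ∈ Sl a b B P, k⁻¹ * x ∈ Sl a b B P := by
    rintro P _ ⟨i, j, hj, x, hx, rfl⟩
    refine ⟨i, j, hj, k⁻¹ * x, hkB x hx, ?_⟩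
    rw [← mul_assoc, (hcomm i j).eq, mul_assoc]
  set c' : ℤ := max c (L + 1) with hc'
  have hc1 : c ≤ c' := le_max_left _ _
  have hc2 : L + 1 ≤ c' := le_max_right _ _
  have hne : ∀ P : ℤ → Prop, (∃ j, P j) → (Sl a b B P).Nonempty := by
    rintro P ⟨j, hj⟩
    exact ⟨a ^ (0 : ℤ) * b ^ j * 1, 0, j, hj, 1, hP.one, rfl⟩
  obtain ⟨y1, hy1, W1, hW1, hW1l, ⟨r1, hr1W, hr1⟩, hy1W⟩ := keyA hconn ho hko hl.1 hkl
    (hne (fun j => c' ≤ j) ⟨c', le_refl _⟩) (by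
      rintro _ ⟨i, j, hj, x, hx, rfl⟩ hl'
      have h1 := hLl i j x hx hl'
      rw [abs_le] at h1
      omega) (hkS _)
  obtain ⟨y2, hy2, W2, hW2, hW2l, ⟨r2, hr2W, hr2⟩, hy2W⟩ := keyA hconn ho hko hl.1 hkl
    (hne (fun j => j ≤ -c') ⟨-c', le_refl _⟩) (by
      rintro _ ⟨i, j, hj, x, hx, rfl⟩ hl'
      have h1 := hLl i j x hx hl'
      rw [abs_le] at h1
      omega) (hkS _)
  have hkl' : Conn (cay S) ((fun x => k * x) '' l) := conn_left k hl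
  have hU1 : Conn (cay S) (W1 ∪ (fun x => k * x) '' l) :=
    conn_union_inter hW1 hkl' hy1W ⟨y1, hy1, rfl⟩
  have hU2 : Conn (cay S) ((W1 ∪ (fun x => k * x) '' l) ∪ W2) :=
    conn_union_inter hU1 hW2 (Or.inr ⟨y2, hy2, rfl⟩) hy2W
  obtain ⟨W, hWsub, hWfin, hWc, hrW1, hrW2⟩ := conn_finite hU2 (Or.inl (Or.inl hr1W)) (Or.inr hr2W)
  refine ⟨W, hWfin, hWc, ?_, ⟨r1, hrW1, ?_⟩, ⟨r2, hrW2, ?_⟩⟩
  · rw [Set.disjoint_left]
    intro w hw hwl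
    rcases hWsub hw with (h1 | ⟨x, hx, rfl⟩) | h1
    · exact hW1l w h1 hwl
    · exact hkl x hx hwl
    · exact hW2l w h1 hwl
  · obtain ⟨i, j, hj, x, hx, hxe⟩ := hr1
    exact ⟨i, j, le_trans hc1 hj, x, hx, hxe⟩
  · obtain ⟨i, j, hj, x, hx, hxe⟩ := hr2
    refine ⟨i, j, ?_, x, hx, hxe⟩
    simp only at hj ⊢
    omega

end Pool.Agent.Helper98.KZ
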